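import Pool.Agent.SZG.StmtsE
import Pool.Agent.Helper49_THS.LAR

/-!
# Squad SZG, row HT2 (helper67): the height of `T 0`
-/

set_option autoImplicit false

namespace Pool.Agent.SZG.H67

open scoped BigOperators
open Pool.Agent.THS Pool.Agent.SZG
open Pool.Agent.THS.H49 (le_nv ex_nv nv_nonneg v_sgn sgn_comm v_sum_le)

theorem inf_two {K : Type} [Field K] [NumberField K] (v : NumberField.InfinitePlace K) :
    v.val 2 = 2 := by
  have h1 : v (2 : K) = ‖v.embedding (2 : K)‖ := (NumberField.InfinitePlace.norm_embedding_eq v 2).symm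
  have h2 : v.embedding (2 : K) = (2 : ℂ) := map_ofNat _ 2
  rw [h2] at h1
  have h3 : ‖(2 : ℂ)‖ = 2 := by norm_num
  rw [h3] at h1
  exact h1

theorem ht2 (hR : RgiStmt) (hcp : HcpStatement) : Ht2Stmt := by
  classical
  intro K I _ _ _ g E L0 c e s T x h
  have hkey : ∀ d, (2 : K) ^ g * (T 0 d * T 0 d) =
      s * ∑ b, ((sgn b d : ℤ) : K) * (x 0 (0, b) * x 0 (0, b)) := by
    intro d
    have h1 := hR g K I T 0 d 0 0
    rw [zero_add, add_zero, sub_zero] at h1
    rw [← h1, Finset.mul_sum]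
    refine Finset.sum_congr rfl fun b _ => ?_
    rw [h.rie 0 b 0 0]
    ring
  have hX : ∀ i : Fin 2, (![T 0, T 0] : Fin 2 → Ch g → K) i ≠ 0 := by
    intro i
    fin_cases i
    · exact h.T0 0
    · exact h.T0 0
  have hY : ∀ i : Fin 2, (![x 0, x 0] : Fin 2 → Ch g × Ch g → K) i ≠ 0 := by
    intro i
    fin_cases i
    · exact h.x0 0
    · exact h.x0 0
  have hm := hcp K (Ch g) (Ch g × Ch g) 2 2 1 g 1 s
    ![T 0, T 0] ![x 0, x 0] zero_le_one h.s0 hX hY ?_ ?_
  · rw [Fin.prod_univ_two, Fin.prod_univ_two] at hm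
    simp only [Matrix.cons_val_zero, Matrix.cons_val_one, one_mul] at hm
    rw [← pow_mul] at hm
    rw [pow_two, pow_two]
    exact hm
  · intro v
    rw [Fin.prod_univ_two, Fin.prod_univ_two]
    simp only [Matrix.cons_val_zero, Matrix.cons_val_one, pow_one, one_mul]
    obtain ⟨d, hd⟩ := ex_nv v.val (T 0)
    have e1 : (2 : ℝ) ^ g * (nv v.val (T 0) * nv v.val (T 0)) =
        v.val ((2 : K) ^ g * (T 0 d * T 0 d)) := by
      rw [map_mul, map_mul, hd, map_pow, inf_two]
    have hb := v_sum_le v.val d (fun b => x 0 (0, b) * x 0 (0, b))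
      (nv v.val (x 0) * nv v.val (x 0)) (fun b => by
        rw [map_mul]
        exact mul_le_mul (le_nv _ _ _) (le_nv _ _ _) (v.val.nonneg _) (nv_nonneg _ _))
    have e2 : ∑ b, ((sgn b d : ℤ) : K) * (x 0 (0, b) * x 0 (0, b)) =
        ∑ b, ((sgn d b : ℤ) : K) * (x 0 (0, b) * x 0 (0, b)) :=
      Finset.sum_congr rfl fun b _ => by rw [sgn_comm]
    rw [hkey d, map_mul, e2] at e1
    have h0 : (0 : ℝ) ≤ v.val s := v.val.nonneg _
    have h3 := mul_le_mul_of_nonneg_left hb h0
    rw [← e1] at h3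
    have h4 : (0 : ℝ) < 2 ^ g := by positivity
    have h5 : v.val s * (2 ^ g * (nv v.val (x 0) * nv v.val (x 0))) =
        2 ^ g * (v.val s * (nv v.val (x 0) * nv v.val (x 0))) := by ring
    rw [h5] at h3
    exact le_of_mul_le_mul_left h3 h4
  · intro v
    rw [Fin.prod_univ_two, Fin.prod_univ_two]
    simp only [Matrix.cons_val_zero, Matrix.cons_val_one, pow_one]
    obtain ⟨d, hd⟩ := ex_nv v.val (T 0)
    have e1 : v.val 2 ^ g * (nv v.val (T 0) * nv v.val (T 0)) =
        v.val ((2 : K) ^ g * (T 0 d * T 0 d)) := by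
      rw [map_mul, map_mul, hd, map_pow]
    have hna : IsNonarchimedean v.val := fun a b => NumberField.FinitePlace.add_le v a b
    have hb : v.val (∑ b, ((sgn b d : ℤ) : K) * (x 0 (0, b) * x 0 (0, b))) ≤
        nv v.val (x 0) * nv v.val (x 0) := by
      refine (hna.apply_sum_le (s := Finset.univ)).trans ?_
      refine Real.iSup_le (fun b => ?_) (mul_nonneg (nv_nonneg _ _) (nv_nonneg _ _))
      rw [map_mul, v_sgn, one_mul, map_mul]
      exact mul_le_mul (le_nv _ _ _) (le_nv _ _ _) (v.val.nonneg _) (nv_nonneg _ _)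
    rw [hkey d, map_mul] at e1
    change v.val 2 ^ g * (nv v.val (T 0) * nv v.val (T 0)) ≤
      v.val s * (nv v.val (x 0) * nv v.val (x 0))
    rw [e1]
    exact mul_le_mul_of_nonneg_left hb (v.val.nonneg _)

end Pool.Agent.SZG.H67
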