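import Pool.Agent.SZG.StmtsW

/-!
# Squad SZG, row MPP (helper67): periods in the row index
-/

set_option autoImplicit false

namespace Pool.Agent.SZG.H67

open Pool.Agent.THS Pool.Agent.SZG

theorem mpp (hQ : QsaStmt) : MppStmt := by
  intro K I _ _ g E L0 c e s T x l Z b m h hb hm k a
  have hlm : l • m ∈ L0 := L0.nsmul_mem hm l
  have h1 : e (l • (b + m)) Z = e (l • b) Z * (e m Z) ^ l := by
    rw [smul_add, (hQ K I g E L0 c e s T x h (l • b) hb (l • m) hlm).2.2.2.2.2.1 Z]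
    congr 1
    have h2 := (hQ K I g E L0 c e s T x h m hm m hm).2.2.2.2.2.2.2.1 (l : ℤ) Z
    rw [natCast_zsmul, zpow_natCast] at h2
    exact h2
  have h3 : e m ((l * k) • Z + b) = (e m Z) ^ (l * k) * e m b := by
    rw [h.eadd m hm]
    congr 1
    have h2 := (hQ K I g E L0 c e s T x h m hm m hm).2.2.2.2.2.2.2.2 ((l * k : ℕ) : ℤ) Z
    rw [natCast_zsmul, zpow_natCast] at h2
    exact h2
  have h4 : T ((l * k) • Z + (b + m)) a =
      c m * ((e m Z) ^ (l * k) * e m b) * T ((l * k) • Z + b) a := by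
    rw [← add_assoc, h.per m hm, h3]
  have h5 : e m Z ≠ 0 := h.ene m hm Z
  have h6 : (((e m Z) ^ l)⁻¹) ^ k * (e m Z) ^ (l * k) = 1 := by
    rw [inv_pow, ← pow_mul]
    exact inv_mul_cancel₀ (pow_ne_zero _ h5)
  unfold Mp
  rw [h1, h4, mul_inv, mul_pow]
  calc (e (l • b) Z)⁻¹ ^ k * ((e m Z ^ l)⁻¹) ^ k *
        (c m * ((e m Z) ^ (l * k) * e m b) * T ((l * k) • Z + b) a)
      = ((((e m Z) ^ l)⁻¹) ^ k * (e m Z) ^ (l * k)) *
        (c m * e m b * ((e (l • b) Z)⁻¹ ^ k * T ((l * k) • Z + b) a)) := by ring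
    _ = c m * e m b * ((e (l • b) Z)⁻¹ ^ k * T ((l * k) • Z + b) a) := by rw [h6, one_mul]

end Pool.Agent.SZG.H67
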